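import Pool.Agent.H11.NX.Targets

set_option autoImplicit false

namespace Pool.Agent.H53.NX.ORDP

open Pool.Agent.H11.NX

theorem exists_small (r : ℕ) (hr : r.Prime) (h : r ∣ 60) :
    ∃ σ : alternatingGroup (Fin 5), σ ≠ 1 ∧ σ ^ r = 1 := by
  have : Fact r.Prime := ⟨hr⟩
  have hc : Nat.card (alternatingGroup (Fin 5)) = 60 := by
    rw [nat_card_alternatingGroup]
    simp [Nat.factorial]
  obtain ⟨σ, hσ⟩ := exists_prime_orderOf_dvd_card' (G := alternatingGroup (Fin 5)) r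
    (by rw [hc]; exact h)
  refine ⟨σ, ?_, ?_⟩
  · intro h1
    rw [h1, orderOf_one] at hσ
    exact hr.one_lt.ne hσ
  · rw [← hσ]
    exact pow_orderOf_eq_one σ

theorem pf_ordp : T_LIN → T_ORDP := by
  intro hLIN G _ p hp hC
  obtain ⟨r, hr, hrp, hr60, hr9⟩ : ∃ r : ℕ, r.Prime ∧ r ≠ p ∧ r ∣ 60 ∧ r * r * 5 ≤ 45 := by
    by_cases h2 : p = 2
    · exact ⟨3, Nat.prime_three, by omega, by norm_num, by norm_num⟩
    · exact ⟨2, Nat.prime_two, fun h => h2 h.symm, by norm_num, by norm_num⟩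
  obtain ⟨L, P, A, B, n, K, fK, φ, hfin, hchar, hsurj, hn, -⟩ := hC ∅ 45
  have hrK : (r : K) ≠ 0 := by
    intro h0
    have h1 : p ∣ r := (CharP.cast_eq_zero_iff K p r).mp h0
    exact hrp ((Nat.prime_dvd_prime_iff_eq hp hr).mp h1).symm
  obtain ⟨θ, -, hθ⟩ := hLIN K n r 5 1 hr hrK (by rw [one_pow]; exact Subgroup.one_mem _)
    le_rfl (hr9.trans hn)
  obtain ⟨σ, hσ1, hσr⟩ := exists_small r hr hr60
  let y : Matrix.ProjectiveSpecialLinearGroup (Fin n) K :=
    QuotientGroup.mk' (Subgroup.center (Matrix.SpecialLinearGroup (Fin n) K)) (θ σ)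
  have hy1 : y ≠ 1 := by
    intro h
    apply hσ1
    apply hθ
    exact (QuotientGroup.eq_one_iff (θ σ)).mp h
  have hyr : y ^ r = 1 := by
    have : y ^ r = QuotientGroup.mk' (Subgroup.center (Matrix.SpecialLinearGroup (Fin n) K))
        (θ (σ ^ r)) := by
      rw [map_pow, map_pow]
    rw [this, hσr, map_one, map_one]
  obtain ⟨x, hx⟩ := hsurj y
  have : Fact r.Prime := ⟨hr⟩
  have hoy : orderOf y = r := orderOf_eq_prime hyr hy1
  have hdvd : r ∣ orderOf x := by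
    rw [← hoy, ← hx]
    exact orderOf_map_dvd φ x
  have : Finite L := hfin
  have hox : orderOf x ≠ 0 := (orderOf_pos x).ne'
  have hz : orderOf (x ^ (orderOf x / r)) = r := orderOf_pow_orderOf_div hox hdvd
  refine ⟨((x ^ (orderOf x / r) : L) : G), r, hr, hrp, ?_, ?_⟩
  · intro h
    have h1 : x ^ (orderOf x / r) = 1 := by
      apply Subtype.ext
      exact h
    rw [h1, orderOf_one] at hz
    exact hr.one_lt.ne hz
  · have h1 : (x ^ (orderOf x / r)) ^ r = 1 :=
      orderOf_dvd_iff_pow_eq_one.mp (by rw [hz])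
    have h2 := congrArg (fun z : L => (z : G)) h1
    simpa using h2

end Pool.Agent.H53.NX.ORDP
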